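import Pool.Agent.T9h55.MD.Mu

/-!
# Short intervals, linear phases and rotations of tori: arbitrary compact null sets

For the rotations `x ↦ x + g` of the torus `ℝ^m/ℤ^m` (`G = ℝ^m`, `Γ = ℤ^m`) we prove the estimate of the problem
with the supremum over all `g` in a compact set `E` and over all starting points `x`, for ALL compact sets `E` whose
images under the nonzero integral linear forms are null sets; no arithmetical condition is imposed, the set may contain
rational points, or accumulate at them (for example all Cantor sets of measure zero in `ℝ/ℤ`, and all compact sets of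
Hausdorff dimension less than one in `ℝ^m/ℤ^m`).

The basic theorem is about linear phases and an arbitrary multiplicative function `f` bounded by one. For a compact set
`E` of frequencies of measure `|E|` the supremum over `E` of the correlations in short intervals is on logarithmic
average at most `(A |E|^(1/A) + ε) H`, unless `f` correlates with a phase `e(b n / q)` with `b / q` in `E`. So for
compact null sets the rational points of the set are the only obstructions, and each of them has to be checked alone.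
-/

set_option autoImplicit false

open Finset MeasureTheory

namespace Pool.Agent.Results.MP_663568_nt.AllCompactNullSets

/-- `e(x) = exp(2 π i x)` -/
noncomputable def e (x : ℝ) : ℂ := Complex.exp (2 * Real.pi * Complex.I * x)

/-- the Möbius function -/
noncomputable def mu (n : ℕ) : ℂ := ((ArithmeticFunction.moebius n : ℤ) : ℂ)

/-- `f` is multiplicative and bounded by one. -/
def IsBoundedMultiplicative (f : ℕ → ℂ) : Prop :=
  (∀ n, ‖f n‖ ≤ 1) ∧ ∀ a b : ℕ, a.Coprime b → f (a * b) = f a * f b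

/-- The supremum of `|∑_{1 ≤ h ≤ H} f(n + h) e(α (n + h))|` over all real `α` which are in `E` modulo one. -/
noncomputable def phaseSup (E : Set UnitAddCircle) (f : ℕ → ℂ) (n H : ℕ) : ℝ :=
  ⨆ α : {α : ℝ // (α : UnitAddCircle) ∈ E}, ‖∑ h ∈ Icc 1 H, f (n + h) * e (α.1 * ((n + h : ℕ) : ℝ))‖

/-- `∑_{n ≤ N} (1/n) sup_{α ∈ E} |∑_{h ≤ H} f(n + h) e(α (n + h))|` is `o(H log N)`, uniformly over `N ≥ H`. -/
def Small (f : ℕ → ℂ) (E : Set UnitAddCircle) : Prop := ∀ ε : ℝ, 0 < ε → ∃ H₀ : ℕ, ∀ N H : ℕ, H₀ ≤ H → H ≤ N →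
  ∑ n ∈ Icc 1 N, (1 / (n : ℝ)) * phaseSup E f n H ≤ ε * H * Real.log N

/-- For each rational point `b / q` of `E` the estimate holds for the single frequency `b / q`. -/
def SmallAtRationals (f : ℕ → ℂ) (E : Set UnitAddCircle) : Prop :=
  ∀ b q : ℕ, 1 ≤ q → (((b : ℝ) / q : ℝ) : UnitAddCircle) ∈ E → Small f {(((b : ℝ) / q : ℝ) : UnitAddCircle)}

/-- the value `k · x` of the integral linear form `k` -/
def form {m : ℕ} (k : Fin m → ℤ) (x : Fin m → UnitAddCircle) : UnitAddCircle := ∑ i, k i • x i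

/-- The supremum of `|∑_{1 ≤ h ≤ H} f(n + h) F(x + (n + h) g)|` over all rotations `g ∈ E` and all starting points
`x` of the torus. -/
noncomputable def windowSup {m : ℕ} (F : C(Fin m → UnitAddCircle, ℂ)) (E : Set (Fin m → UnitAddCircle)) (f : ℕ → ℂ)
    (n H : ℕ) : ℝ :=
  ⨆ p : E × (Fin m → UnitAddCircle), ‖∑ h ∈ Icc 1 H, f (n + h) * F (p.2 + (n + h) • (p.1 : Fin m → UnitAddCircle))‖

open Pool.Agent.T9h55.MD Pool.Agent.Helper44K9.FU Polynomial

lemma window_lin (f : ℕ → ℂ) (α : ℝ) (n H : ℕ) :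
    ∑ h ∈ Icc 1 H, f (n + h) * e (α * ((n + h : ℕ) : ℝ)) = W f (lin α) n H := by
  unfold W
  rw [Pool.Agent.Helper44K9.FB.Ioc_image, sum_image fun a _ b _ hab => by omega]
  refine sum_congr rfl fun h _ => ?_
  rw [lin_eval]
  rfl

lemma phaseSup_le (E : Set UnitAddCircle) {f : ℕ → ℂ} (hf : ∀ n, ‖f n‖ ≤ 1) (n H : ℕ) :
    phaseSup E f n H ≤ wSup 1 E f n H := by
  refine Real.iSup_le (fun α => ?_) (FL.wSup_nonneg n H)
  rw [window_lin]
  refine FL.le_wSup hf n H ((natDegree_C_mul_le _ _).trans natDegree_X_le) ?_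
  have : (lin α.1).coeff 1 = α.1 := by simp [lin]
  rw [this]
  exact α.2

lemma le_phaseSup {E : Set UnitAddCircle} {f : ℕ → ℂ} (hf : ∀ n, ‖f n‖ ≤ 1) (n H : ℕ) {α : ℝ}
    (hα : (α : UnitAddCircle) ∈ E) : ‖W f (lin α) n H‖ ≤ phaseSup E f n H := by
  have hbdd : BddAbove (Set.range fun α : {α : ℝ // (α : UnitAddCircle) ∈ E} =>
      ‖∑ h ∈ Icc 1 H, f (n + h) * e (α.1 * ((n + h : ℕ) : ℝ))‖) := by
    refine ⟨H, ?_⟩
    rintro _ ⟨α, rfl⟩
    simp only [window_lin]
    exact FL.W_le hf _ n H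
  rw [← window_lin]
  exact le_ciSup hbdd (⟨α, hα⟩ : {α : ℝ // (α : UnitAddCircle) ∈ E})

lemma shortAt_of_small {f : ℕ → ℂ} (hf : ∀ n, ‖f n‖ ≤ 1) {E : Set UnitAddCircle} (h : Small f E) {α : ℝ}
    (hα : (α : UnitAddCircle) ∈ E) : ShortAt f α := by
  intro ε hε
  obtain ⟨H₀, hH₀⟩ := h ε hε
  refine ⟨H₀, fun N H hH hN => le_trans (sum_le_sum fun n _ => ?_) (hH₀ N H hH hN)⟩
  exact mul_le_mul_of_nonneg_left (le_phaseSup hf n H hα) (by positivity)

/-- all single frequencies, for the Möbius function -/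
lemma small_mu_point (x : ℝ) : Small mu {(x : UnitAddCircle)} := by
  intro ε hε
  obtain ⟨H₀, hH₀⟩ := lin_null (f := mu) mu_mult (E := {(x : UnitAddCircle)}) isCompact_singleton (vol_point _)
    (fun b q _ _ => mu_shortAt _) ε hε
  refine ⟨H₀, fun N H hH hN => le_trans (sum_le_sum fun n _ => ?_) (hH₀ N H hH hN)⟩
  exact mul_le_mul_of_nonneg_left (phaseSup_le _ mu_mult.1 n H) (by positivity)

/-- **Compact sets of frequencies and of rotations of tori.**
(1) There is a constant `A` such that for every multiplicative `f` bounded by one and every compact set `E ⊂ ℝ/ℤ`,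
if the estimate holds for each single rational frequency in `E` then for each `ε > 0` and all `N ≥ H ≥ H₀`
`∑_{n ≤ N} (1/n) sup_{α ∈ E} |∑_{h ≤ H} f(n + h) e(α (n + h))| ≤ (A |E|^(1/A) + ε) H log N`.
(2) For compact null sets `E` the sum is `o(H log N)`, uniformly over `N ≥ H`, if and only if this holds for each single
rational frequency in `E`.
(3) Let `F` be a continuous function on the torus `ℝ^m/ℤ^m` and `E` a compact subset of the torus whose images under
the integral linear forms `k ≠ 0` are null sets. Then for the Möbius function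
`∑_{n ≤ N} (1/n) sup_{g ∈ E, x} |∑_{h ≤ H} μ(n + h) F(x + (n + h) g)| = o(H log N)`, uniformly over `N ≥ H`, and the
same holds for every multiplicative `f` bounded by one for which the estimate holds at each single rational
frequency. -/
theorem result :
    (∃ A : ℕ, 1 ≤ A ∧ ∀ f : ℕ → ℂ, IsBoundedMultiplicative f → ∀ E : Set UnitAddCircle, IsCompact E →
      SmallAtRationals f E → ∀ ε : ℝ, 0 < ε → ∃ H₀ : ℕ, ∀ N H : ℕ, H₀ ≤ H → H ≤ N →
        ∑ n ∈ Icc 1 N, (1 / (n : ℝ)) * phaseSup E f n H ≤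
          (A * (volume E).toReal ^ (1 / (A : ℝ)) + ε) * H * Real.log N) ∧
    (∀ f : ℕ → ℂ, IsBoundedMultiplicative f → ∀ E : Set UnitAddCircle, IsCompact E → volume E = 0 →
      (Small f E ↔ SmallAtRationals f E)) ∧
    ∀ (m : ℕ) (F : C(Fin m → UnitAddCircle, ℂ)) (E : Set (Fin m → UnitAddCircle)), IsCompact E →
      (∀ k : Fin m → ℤ, k ≠ 0 → volume (form k '' E) = 0) → ∀ ε : ℝ, 0 < ε →
      (∃ H₀ : ℕ, ∀ N H : ℕ, H₀ ≤ H → H ≤ N →
        ∑ n ∈ Icc 1 N, (1 / (n : ℝ)) * windowSup F E mu n H ≤ ε * H * Real.log N) ∧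
      ∀ f : ℕ → ℂ, IsBoundedMultiplicative f → SmallAtRationals f Set.univ → ∃ H₀ : ℕ, ∀ N H : ℕ, H₀ ≤ H → H ≤ N →
        ∑ n ∈ Icc 1 N, (1 / (n : ℝ)) * windowSup F E f n H ≤ ε * H * Real.log N := by
  have hrat : ∀ (f : ℕ → ℂ), IsBoundedMultiplicative f → ∀ E : Set UnitAddCircle, SmallAtRationals f E →
      ShortRat f E := fun f hf E h b q hq hb => shortAt_of_small hf.1 (h b q hq hb) rfl
  have htor : ∀ (m : ℕ) (F : C(Fin m → UnitAddCircle, ℂ)) (E : Set (Fin m → UnitAddCircle)), IsCompact E →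
      (∀ k : Fin m → ℤ, k ≠ 0 → volume (form k '' E) = 0) → ∀ ε : ℝ, 0 < ε →
      ∀ f : ℕ → ℂ, IsBoundedMultiplicative f → SmallAtRationals f Set.univ → ∃ H₀ : ℕ, ∀ N H : ℕ, H₀ ≤ H → H ≤ N →
        ∑ n ∈ Icc 1 N, (1 / (n : ℝ)) * windowSup F E f n H ≤ ε * H * Real.log N := by
    intro m F E hE hv ε hε f hf hR
    exact torus F hE hv hf (fun k b q hq hb => hrat f hf Set.univ hR b q hq (Set.mem_univ _)) ε hε
  refine ⟨?_, ?_, fun m F E hE hv ε hε => ⟨?_, htor m F E hE hv ε hε⟩⟩
  · obtain ⟨A, hA, h⟩ := all3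
    refine ⟨A, hA, fun f hf E hE hR ε hε => ?_⟩
    obtain ⟨H₀, hH₀⟩ := h f hf E hE (hrat f hf E hR) ε hε
    refine ⟨H₀, fun N H hH hN => le_trans (sum_le_sum fun n _ => ?_) (hH₀ N H hH hN)⟩
    exact mul_le_mul_of_nonneg_left (phaseSup_le E hf.1 n H) (by positivity)
  · intro f hf E hE hv
    constructor
    · intro h b q hq hb ε hε
      obtain ⟨H₀, hH₀⟩ := h ε hε
      refine ⟨H₀, fun N H hH hN => le_trans (sum_le_sum fun n _ => ?_) (hH₀ N H hH hN)⟩
      refine mul_le_mul_of_nonneg_left ?_ (by positivity)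
      refine Real.iSup_le (fun α => ?_) (Real.iSup_nonneg fun _ => norm_nonneg _)
      rw [window_lin]
      refine le_phaseSup hf.1 n H ?_
      have := α.2
      rw [Set.mem_singleton_iff] at this
      rw [this]
      exact hb
    · intro h ε hε
      obtain ⟨H₀, hH₀⟩ := lin_null hf hE hv (hrat f hf E h) ε hε
      refine ⟨H₀, fun N H hH hN => le_trans (sum_le_sum fun n _ => ?_) (hH₀ N H hH hN)⟩
      exact mul_le_mul_of_nonneg_left (phaseSup_le E hf.1 n H) (by positivity)
  · exact htor m F E hE hv ε hε mu mu_mult (fun b q _ _ => small_mu_point _)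

end Pool.Agent.Results.MP_663568_nt.AllCompactNullSets
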