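import Pool.Agent.T9h55.MD.LocThm

/-!
# It suffices to consider frequencies in one short arc

Let `S(U)` be the upper limit of the logarithmic averages `(1 / (H log N)) ∑_{n ≤ N} (1/n) sup |∑_{h ≤ H} f(n+h) e(P(n+h))|`
(`N ≥ H → ∞`), where the supremum is over the real polynomials of degree at most `d` with leading coefficient (the
coefficient of `x^d`) in `U` modulo one. We show `S(ℝ/ℤ) ≤ S(U) / |U|` for every nonempty open set `U`, if `f` is a bounded
multiplicative function for which the phases of smaller degree (for `d = 1`: the single rational frequencies) cause no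
problem; for the Möbius function and `d = 1` there is no assumption.

So the problem for all tori (`G = ℝ^m`, `Γ = ℤ^m`), with the supremum over ALL rotations, is equivalent to the same
estimate for the supremum over the frequencies in ONE arbitrarily short arc, and it is enough to have a bound `o(|U|)` for
a sequence of arcs; for polynomial orbits of degree `d` on tori one such arc is needed for each of the degrees
`1, ..., d`.
-/

set_option autoImplicit false

open Finset MeasureTheory Polynomial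

namespace Pool.Agent.Results.MP_663568_nt.FrequenciesInShortArcs

/-- `e(x) = exp(2 π i x)` -/
noncomputable def e (x : ℝ) : ℂ := Complex.exp (2 * Real.pi * Complex.I * x)

/-- the Möbius function -/
noncomputable def mu (n : ℕ) : ℂ := ((ArithmeticFunction.moebius n : ℤ) : ℂ)

/-- `f` is multiplicative and bounded by one. -/
def IsBoundedMultiplicative (f : ℕ → ℂ) : Prop :=
  (∀ n, ‖f n‖ ≤ 1) ∧ ∀ a b : ℕ, a.Coprime b → f (a * b) = f a * f b

/-- The supremum of `|∑_{1 ≤ h ≤ H} f(n + h) e(P(n + h))|` over all real polynomials `P` of degree at most `d` whose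
coefficient of `x ^ d` is in `U` modulo one; all other coefficients are arbitrary. -/
noncomputable def windowSup (d : ℕ) (U : Set UnitAddCircle) (f : ℕ → ℂ) (n H : ℕ) : ℝ :=
  ⨆ P : {P : ℝ[X] // P.natDegree ≤ d ∧ ((P.coeff d : ℝ) : UnitAddCircle) ∈ U},
    ‖∑ h ∈ Icc 1 H, f (n + h) * e (P.1.eval ((n + h : ℕ) : ℝ))‖

/-- The upper limit of the logarithmic averages of the suprema is at most `σ`: for every `ε > 0` and all `N ≥ H ≥ H₀`,
`∑_{n ≤ N} (1/n) sup_P |∑_{h ≤ H} f(n + h) e(P(n + h))| ≤ (σ + ε) H log N`. -/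
def AtMost (f : ℕ → ℂ) (d : ℕ) (U : Set UnitAddCircle) (σ : ℝ) : Prop :=
  ∀ ε : ℝ, 0 < ε → ∃ H₀ : ℕ, ∀ N H : ℕ, H₀ ≤ H → H ≤ N →
    ∑ n ∈ Icc 1 N, (1 / (n : ℝ)) * windowSup d U f n H ≤ (σ + ε) * H * Real.log N

/-- The phases of smaller degree: for `d = 1` each single rational frequency, for `d ≥ 2` all polynomials of degree at
most `d - 1`. -/
def LowerDegree (f : ℕ → ℂ) (d : ℕ) : Prop :=
  (d = 1 → ∀ b q : ℕ, 1 ≤ q → AtMost f 1 {(((b : ℝ) / q : ℝ) : UnitAddCircle)} 0) ∧
  (2 ≤ d → AtMost f (d - 1) Set.univ 0)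

/-- The supremum of `|∑_{1 ≤ h ≤ H} μ(n + h) F(P(n + h))|` over all polynomial orbits
`P = (P_1, ..., P_m)` of degree at most `d` on the torus. -/
noncomputable def orbitSup {m : ℕ} (d : ℕ) (F : C(Fin m → UnitAddCircle, ℂ)) (n H : ℕ) : ℝ :=
  ⨆ P : {P : Fin m → ℝ[X] // ∀ i, (P i).natDegree ≤ d}, ‖∑ h ∈ Icc 1 H, mu (n + h) *
    F (fun i => (((P.1 i).eval ((n + h : ℕ) : ℝ) : ℝ) : UnitAddCircle))‖

/-- The supremum of `|∑_{1 ≤ h ≤ H} μ(n + h) F(x + (n + h) g)|` over all rotations `g ∈ V` and all starting points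
`x` of the torus. -/
noncomputable def rotationSup {m : ℕ} (F : C(Fin m → UnitAddCircle, ℂ)) (V : Set (Fin m → UnitAddCircle))
    (n H : ℕ) : ℝ :=
  ⨆ p : V × (Fin m → UnitAddCircle), ‖∑ h ∈ Icc 1 H, mu (n + h) * F (p.2 + (n + h) • (p.1 : Fin m → UnitAddCircle))‖

/-- `∑_{n ≤ N} (1/n) s(n, H) = o(H log N)`, uniformly over `N ≥ H`. -/
def Small (s : ℕ → ℕ → ℝ) : Prop := ∀ ε : ℝ, 0 < ε → ∃ H₀ : ℕ, ∀ N H : ℕ, H₀ ≤ H → H ≤ N →
  ∑ n ∈ Icc 1 N, (1 / (n : ℝ)) * s n H ≤ ε * H * Real.log N

open Pool.Agent.T9h55.MD Pool.Agent.Helper44K9.FU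

lemma windowSup_eq (d : ℕ) (E : Set UnitAddCircle) (f : ℕ → ℂ) (n H : ℕ) :
    windowSup d E f n H = Pool.Agent.Helper44K9.FU.wSup d E f n H := by
  unfold windowSup Pool.Agent.Helper44K9.FU.wSup Pool.Agent.Helper44K9.FU.W
  congr 1
  funext P
  rw [Pool.Agent.Helper44K9.FB.Ioc_image, sum_image fun a _ b _ hab => by omega]
  rfl

lemma atMost_iff {f : ℕ → ℂ} {d : ℕ} {U : Set UnitAddCircle} {σ : ℝ} : AtMost f d U σ ↔ BddF f d U σ := by
  unfold AtMost BddF
  simp only [windowSup_eq]

lemma shortAt {f : ℕ → ℂ} (hf : ∀ n, ‖f n‖ ≤ 1) {x : ℝ} (h : BddF f 1 {(x : UnitAddCircle)} 0) : ShortAt f x := by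
  intro ε hε
  obtain ⟨H₀, hH₀⟩ := h ε hε
  refine ⟨H₀, fun N H hH hN => le_trans (sum_le_sum fun n _ => ?_) ((hH₀ N H hH hN).trans (le_of_eq (by ring)))⟩
  refine mul_le_mul_of_nonneg_left ?_ (by positivity)
  refine FL.le_wSup hf n H ((natDegree_C_mul_le _ _).trans natDegree_X_le) ?_
  have : (lin x).coeff 1 = x := by simp [lin]
  rw [this]
  rfl

/-- the supremum over all rotations is at most the one over the polynomial orbits of degree one -/
lemma rotation_le {m : ℕ} (F : C(Fin m → UnitAddCircle, ℂ)) (n H : ℕ) :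
    rotationSup F Set.univ n H ≤ oSup 1 F mu n H := by
  have hbdd : BddAbove (Set.range fun P : {P : Fin m → ℝ[X] // ∀ i, (P i).natDegree ≤ 1} =>
      ‖∑ h ∈ Icc 1 H, mu (n + h) * F (fun i => (((P.1 i).eval ((n + h : ℕ) : ℝ) : ℝ) : UnitAddCircle))‖) := by
    refine ⟨∑ h ∈ Icc 1 H, ‖F‖, ?_⟩
    rintro _ ⟨p, rfl⟩
    refine (norm_sum_le _ _).trans (sum_le_sum fun h _ => ?_)
    rw [norm_mul]
    calc _ ≤ 1 * ‖F‖ := mul_le_mul (mu_mult.1 (n + h)) (F.norm_coe_le_norm _) (norm_nonneg _) zero_le_one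
      _ = ‖F‖ := one_mul _
  refine Real.iSup_le (fun p => ?_) (Real.iSup_nonneg fun _ => norm_nonneg _)
  obtain ⟨⟨g, hg⟩, x⟩ := p
  choose c hc using fun i => QuotientAddGroup.mk_surjective (x i)
  choose β hβ using fun i => QuotientAddGroup.mk_surjective (g i)
  have hdeg : ∀ i, (C (c i) + C (β i) * X : ℝ[X]).natDegree ≤ 1 := by
    intro i
    refine (natDegree_add_le _ _).trans (max_le ?_ ?_)
    · rw [natDegree_C]; omega
    · exact (natDegree_C_mul_le _ _).trans natDegree_X_le
  have h1 : ∀ h : ℕ, (x + (n + h) • g) = fun i => ((((C (c i) + C (β i) * X : ℝ[X])).eval ((n + h : ℕ) : ℝ) : ℝ) :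
      UnitAddCircle) := by
    intro h
    funext i
    have hc' : ((c i : ℝ) : UnitAddCircle) = x i := hc i
    have hβ' : ((β i : ℝ) : UnitAddCircle) = g i := hβ i
    rw [Pi.add_apply, Pi.smul_apply, ← hc', ← hβ']
    simp only [eval_add, eval_mul, eval_C, eval_X]
    rw [AddCircle.coe_add, ← AddCircle.coe_nsmul, nsmul_eq_mul, mul_comm]
  simp only [h1]
  exact le_ciSup hbdd (⟨fun i => C (c i) + C (β i) * X, hdeg⟩ : {P : Fin m → ℝ[X] // ∀ i, (P i).natDegree ≤ 1})

/-- the projection of an open set of rotations -/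
lemma atMost_of_rotations {m : ℕ} {V : Set (Fin (m + 1) → UnitAddCircle)}
    (h : ∀ F : C(Fin (m + 1) → UnitAddCircle, ℂ), Small (rotationSup F V)) :
    BddF mu 1 ((fun g : Fin (m + 1) → UnitAddCircle => g 0) '' V) 0 := by
  intro ε hε
  set F : C(Fin (m + 1) → UnitAddCircle, ℂ) := ⟨fun y => (fourier 1 (y 0) : ℂ), by
    exact (fourier 1).continuous.comp (continuous_apply 0)⟩ with hF
  obtain ⟨H₀, hH₀⟩ := h F ε hε
  refine ⟨H₀, fun N H hH hN => le_trans (sum_le_sum fun n _ => ?_) ((hH₀ N H hH hN).trans (le_of_eq (by ring)))⟩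
  refine mul_le_mul_of_nonneg_left ?_ (by positivity)
  refine FL.wSup_le (Real.iSup_nonneg fun _ => norm_nonneg _) fun P hP hPE => ?_
  obtain ⟨g, hgV, hg⟩ := hPE
  simp only at hg
  have hbdd : BddAbove (Set.range fun p : V × (Fin (m + 1) → UnitAddCircle) =>
      ‖∑ h ∈ Icc 1 H, mu (n + h) * F (p.2 + (n + h) • (p.1 : Fin (m + 1) → UnitAddCircle))‖) := by
    refine ⟨∑ h ∈ Icc 1 H, (1 : ℝ), ?_⟩
    rintro _ ⟨p, rfl⟩
    refine (norm_sum_le _ _).trans (sum_le_sum fun h _ => ?_)
    rw [norm_mul]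
    have e2 : ‖F (p.2 + (n + h) • (p.1 : Fin (m + 1) → UnitAddCircle))‖ = 1 :=
      Pool.Agent.Helper44K9.FB.norm_fourier _
    rw [e2, mul_one]
    exact mu_mult.1 (n + h)
  refine le_trans (le_of_eq ?_) (le_ciSup hbdd (⟨⟨g, hgV⟩, fun _ => ((P.coeff 0 : ℝ) : UnitAddCircle)⟩ :
    V × (Fin (m + 1) → UnitAddCircle)))
  congr 1
  unfold W
  rw [Pool.Agent.Helper44K9.FB.Ioc_image, sum_image fun a _ b _ hab => by omega]
  refine sum_congr rfl fun h _ => ?_
  have e3 : F ((fun _ => ((P.coeff 0 : ℝ) : UnitAddCircle)) + (n + h) • g) =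
      Pool.Agent.H807R2.Dav.ee (P.eval ((n + h : ℕ) : ℝ)) := by
    show (fourier 1 (((fun _ : Fin (m + 1) => ((P.coeff 0 : ℝ) : UnitAddCircle)) + (n + h) • g) 0) : ℂ) = _
    rw [Pi.add_apply, Pi.smul_apply, hg, ← AddCircle.coe_nsmul, ← AddCircle.coe_add,
      Pool.Agent.Helper44K9.FB.fourier_real, eval_deg1 hP, nsmul_eq_mul, mul_comm (P.coeff 1)]
  rw [e3]

/-- **Frequencies in short arcs.**
(1) Let `f` be multiplicative and bounded by one, `d ≥ 1`, and suppose that the phases of smaller degree are no problem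
(`LowerDegree`). Let `U` be a nonempty open set. If the upper limit for the polynomial phases of degree at most `d` with
leading coefficient in `U` is at most `σ`, then it is at most `σ / |U|` for all polynomial phases of degree at most `d`.
(2) For the Möbius function and linear phases this holds without any assumption.
(3) Let `d ≥ 1`. The sums `∑_{n ≤ N} (1/n) sup_P |∑_{h ≤ H} μ(n + h) F(P(n + h))|` over all polynomial orbits of degree
at most `d` are `o(H log N)`, uniformly over `N ≥ H`, for all tori `ℝ^m/ℤ^m` and all continuous functions `F` on them, if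
and only if for each degree `1 ≤ j ≤ d` and each `η > 0` there is a nonempty open set `U` such that the upper limit for
the polynomial phases of degree at most `j` with leading coefficient in `U` is at most `η |U|`.
(4) If for some nonempty open set `V` of rotations of a torus of positive dimension (for example an arbitrarily small
ball) and for all continuous `F` the estimate holds for the supremum over the rotations in `V` and all starting points,
then it holds for all rotations and starting points on all tori. -/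
theorem result :
    (∀ f : ℕ → ℂ, IsBoundedMultiplicative f → ∀ d : ℕ, 1 ≤ d → LowerDegree f d →
      ∀ U : Set UnitAddCircle, IsOpen U → U.Nonempty → ∀ σ : ℝ, 0 ≤ σ →
        AtMost f d U σ → AtMost f d Set.univ (σ / (volume U).toReal)) ∧
    (∀ U : Set UnitAddCircle, IsOpen U → U.Nonempty → ∀ σ : ℝ, 0 ≤ σ →
        AtMost mu 1 U σ → AtMost mu 1 Set.univ (σ / (volume U).toReal)) ∧
    (∀ d : ℕ, 1 ≤ d →
      ((∀ (m : ℕ) (F : C(Fin m → UnitAddCircle, ℂ)), Small (orbitSup d F)) ↔
        ∀ j : ℕ, 1 ≤ j → j ≤ d → ∀ η : ℝ, 0 < η → ∃ U : Set UnitAddCircle, IsOpen U ∧ U.Nonempty ∧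
          AtMost mu j U (η * (volume U).toReal))) ∧
    ∀ (m : ℕ) (V : Set (Fin (m + 1) → UnitAddCircle)), IsOpen V → V.Nonempty →
      (∀ F : C(Fin (m + 1) → UnitAddCircle, ℂ), Small (rotationSup F V)) →
      ∀ (k : ℕ) (F : C(Fin k → UnitAddCircle, ℂ)), Small (rotationSup F Set.univ) := by
  have hmuR : ShortRat mu Set.univ := fun b q _ _ => mu_shortAt _
  refine ⟨?_, ?_, ?_, ?_⟩
  · intro f hf d hd hlow U hU hne σ hσ h
    rw [atMost_iff] at h ⊢
    rcases Nat.eq_or_lt_of_le hd with h1 | h1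
    · subst h1
      refine loc_one hf (fun b q hq _ => shortAt hf.1 ?_) hU (vol_pos hU hne) hσ h
      exact atMost_iff.1 (hlow.1 rfl b q hq)
    · obtain ⟨k, rfl⟩ : ∃ k, d = k + 1 := ⟨d - 1, by omega⟩
      have h2 := hlow.2 (by omega)
      rw [Nat.add_sub_cancel, atMost_iff, ← full_iff] at h2
      exact loc_deg hf (by omega) h2 hU (vol_pos hU hne) hσ h
  · intro U hU hne σ hσ h
    rw [atMost_iff] at h ⊢
    exact loc_one mu_mult hmuR hU (vol_pos hU hne) hσ h
  · intro d hd
    constructor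
    · intro h j hj hjd η hη
      refine ⟨Set.univ, isOpen_univ, Set.univ_nonempty, ?_⟩
      rw [atMost_iff]
      intro ε hε
      set F : C(Fin 1 → UnitAddCircle, ℂ) := ⟨fun y => (fourier 1 (y 0) : ℂ), by
        exact (fourier 1).continuous.comp (continuous_apply 0)⟩ with hF
      obtain ⟨H₀, hH₀⟩ := h 1 F ε hε
      refine ⟨H₀, fun N H hH hN => ?_⟩
      have h1 : ∑ n ∈ Icc 1 N, (1 / (n : ℝ)) * wSup j Set.univ mu n H ≤ ε * H * Real.log N := by
        refine le_trans (sum_le_sum fun n _ => ?_) (hH₀ N H hH hN)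
        refine mul_le_mul_of_nonneg_left ?_ (by positivity)
        refine FL.wSup_le (Real.iSup_nonneg fun _ => norm_nonneg _) fun P hP _ => ?_
        have hbdd : BddAbove (Set.range fun P : {P : Fin 1 → ℝ[X] // ∀ i, (P i).natDegree ≤ d} =>
            ‖∑ h ∈ Icc 1 H, mu (n + h) * F (fun i => (((P.1 i).eval ((n + h : ℕ) : ℝ) : ℝ) : UnitAddCircle))‖) := by
          refine ⟨∑ h ∈ Icc 1 H, (1 : ℝ), ?_⟩
          rintro _ ⟨p, rfl⟩
          refine (norm_sum_le _ _).trans (sum_le_sum fun h _ => ?_)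
          rw [norm_mul]
          have e2 : ‖F (fun i => (((p.1 i).eval ((n + h : ℕ) : ℝ) : ℝ) : UnitAddCircle))‖ = 1 :=
            Pool.Agent.Helper44K9.FB.norm_fourier _
          rw [e2, mul_one]
          exact mu_mult.1 (n + h)
        refine le_trans (le_of_eq ?_) (le_ciSup hbdd
          (⟨fun _ => P, fun _ => hP.trans hjd⟩ : {P : Fin 1 → ℝ[X] // ∀ i, (P i).natDegree ≤ d}))
        congr 1
        unfold W
        rw [Pool.Agent.Helper44K9.FB.Ioc_image, sum_image fun a _ b _ hab => by omega]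
        refine sum_congr rfl fun h _ => ?_
        have e3 : F (fun _ => ((P.eval ((n + h : ℕ) : ℝ) : ℝ) : UnitAddCircle)) =
            Pool.Agent.H807R2.Dav.ee (P.eval ((n + h : ℕ) : ℝ)) := Pool.Agent.Helper44K9.FB.fourier_real _
        rw [e3]
      refine h1.trans ?_
      have h2 : (0 : ℝ) ≤ (η * (volume (Set.univ : Set UnitAddCircle)).toReal) * (H * Real.log N) :=
        mul_nonneg (mul_nonneg hη.le ENNReal.toReal_nonneg)
          (mul_nonneg (Nat.cast_nonneg _) (Real.log_natCast_nonneg N))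
      nlinarith
    · intro h m F ε hε
      have h1 := full_of_local mu_mult hmuR (d := d) (fun j hj hjd η hη => by
        obtain ⟨U, hU, hne, hb⟩ := h j hj hjd η hη
        exact ⟨U, hU, hne, atMost_iff.1 hb⟩) d hd le_rfl
      exact orbits F mu_mult h1 ε hε
  · intro m V hV hne h k F ε hε
    have h1 := atMost_of_rotations h
    have hopen : IsOpen ((fun g : Fin (m + 1) → UnitAddCircle => g 0) '' V) := isOpenMap_eval 0 V hV
    have hv := vol_pos hopen (hne.image _)
    have h2 := loc_one mu_mult hmuR hopen hv le_rfl h1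
    rw [zero_div, ← full_iff] at h2
    obtain ⟨H₀, hH₀⟩ := orbits F mu_mult h2 ε hε
    refine ⟨H₀, fun N H hH hN => le_trans (sum_le_sum fun n _ => ?_) (hH₀ N H hH hN)⟩
    exact mul_le_mul_of_nonneg_left (rotation_le F n H) (by positivity)

end Pool.Agent.Results.MP_663568_nt.FrequenciesInShortArcs
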