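import Pool.Agent.T9h55.MD.Sq6

/-!
# The mean square of the supremum over a set of frequencies is at most the measure of the set

Let `f` be multiplicative with `|f| ≤ 1` and `s_E(n, H)` the supremum over the frequencies `α` in `E` modulo one of
`|(1/H) ∑_{h ≤ H} f(n+h) e(α(n+h))|`. For every compact set `E` at whose rational points `f` is small in short
intervals, the logarithmic mean over `n ≤ N` of `s_E(n, H)²` is at most `m |E|` in the limit (`N ≥ H → ∞`), `m` the mean
of `|f|²`. For the Möbius function this is `(6/π²) |E|` for ALL compact sets, without any hypothesis. The constant one in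
the factor `|E|` is what an equidistributed large frequency of a random window would give.

Moreover the large values are shared by the sets of frequencies according to their measures, in both directions: for the
excess `(s_E(n, H) - t)^+`, `t > 0`, its upper mean for a compact set `E` is at most `|E| / t²` times the one for all
frequencies, and the one for all frequencies is at most `1/|U|` times the one for a nonempty open set `U`.

The proof follows a list of separated frequencies with large sums from the window `(n, n + H]` to the windows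
`(n/p, (n+H)/p]` for primes `p`, by means of a potential (the supremum over all lists of the sum of `φ(|sum|/H)`,
`φ` convex), which is almost constant along the dilations at one of many levels; the frequencies `p α` are
equidistributed.
-/

set_option autoImplicit false

open Finset MeasureTheory Polynomial

namespace Pool.Agent.Results.MP_663568_nt.MeanSquareFrequencySets

/-- `e(x) = exp(2 π i x)` -/
noncomputable def e (x : ℝ) : ℂ := Complex.exp (2 * Real.pi * Complex.I * x)

/-- the Möbius function -/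
noncomputable def mu (n : ℕ) : ℂ := ((ArithmeticFunction.moebius n : ℤ) : ℂ)

/-- `f` is multiplicative and bounded by one. -/
def IsBoundedMultiplicative (f : ℕ → ℂ) : Prop :=
  (∀ n, ‖f n‖ ≤ 1) ∧ ∀ a b : ℕ, a.Coprime b → f (a * b) = f a * f b

/-- The supremum over the frequencies `α` in `E` modulo one of `|(1/H) ∑_{1 ≤ h ≤ H} f(n + h) e(α (n + h))|`. -/
noncomputable def phaseSup (E : Set UnitAddCircle) (f : ℕ → ℂ) (n H : ℕ) : ℝ :=
  ⨆ α : {α : ℝ // (α : UnitAddCircle) ∈ E}, ‖∑ h ∈ Icc 1 H, f (n + h) * e (α.1 * ((n + h : ℕ) : ℝ))‖ / H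

/-- The upper limit (`N ≥ H → ∞`) of the logarithmic means of `F(n, H)` over `n ≤ N` is at most `σ`: for every `ε > 0`
and all `N ≥ H ≥ H₀`, `∑_{n ≤ N} (1/n) F(n, H) ≤ (σ + ε) log N`. -/
def AtMost (F : ℕ → ℕ → ℝ) (σ : ℝ) : Prop :=
  ∀ ε : ℝ, 0 < ε → ∃ H₀ : ℕ, ∀ N H : ℕ, H₀ ≤ H → H ≤ N →
    ∑ n ∈ Icc 1 N, (1 / (n : ℝ)) * F n H ≤ (σ + ε) * Real.log N

/-- At each single rational point `b/q` of `E` the function `f` has small sums in short intervals. -/
def SmallAtRationals (f : ℕ → ℂ) (E : Set UnitAddCircle) : Prop :=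
  ∀ b q : ℕ, 1 ≤ q → (((b : ℝ) / q : ℝ) : UnitAddCircle) ∈ E →
    AtMost (phaseSup {(((b : ℝ) / q : ℝ) : UnitAddCircle)} f) 0

/-- The mean of `|f|²` over long windows is at most `m`. -/
def SquareMean (f : ℕ → ℂ) (m : ℝ) : Prop := ∀ ε : ℝ, 0 < ε → ∃ H₀ : ℕ, ∀ H : ℕ, H₀ ≤ H → ∀ n : ℕ,
  ∑ h ∈ Icc 1 H, ‖f (n + h)‖ ^ 2 ≤ (m + ε) * H

open Pool.Agent.T9h55.MD Pool.Agent.Helper44K9.FU

lemma phaseSup_eq (E : Set UnitAddCircle) {f : ℕ → ℂ} (hf : ∀ n, ‖f n‖ ≤ 1) (n H : ℕ) :
    phaseSup E f n H = wSup 1 E f n H / H := by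
  have hWL : ∀ α : ℝ, ∑ h ∈ Icc 1 H, f (n + h) * e (α * ((n + h : ℕ) : ℝ)) = WL f α n H := by
    intro α
    rw [WL_eq, Pool.Agent.Helper44K9.FB.Ioc_image, sum_image fun a _ b _ hab => by omega]
    rfl
  unfold phaseSup
  simp only [hWL]
  have hbdd : BddAbove (Set.range fun α : {α : ℝ // (α : UnitAddCircle) ∈ E} => ‖WL f α.1 n H‖ / H) := by
    refine ⟨1, ?_⟩
    rintro _ ⟨α, rfl⟩
    exact WLH_le hf α.1 n H
  have h0 : 0 ≤ ⨆ α : {α : ℝ // (α : UnitAddCircle) ∈ E}, ‖WL f α.1 n H‖ / H :=
    Real.iSup_nonneg fun _ => by positivity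
  rcases Nat.eq_zero_or_pos H with hH | hH
  · subst hH
    simp
  have hH0 : (0 : ℝ) < H := by exact_mod_cast hH
  apply le_antisymm
  · refine Real.iSup_le (fun α => ?_) (nsup01 hf n H).1
    refine div_le_div_of_nonneg_right ?_ hH0.le
    exact FL.le_wSup hf n H (lin_deg α.1) (by rw [lin_coeff]; exact α.2)
  · rw [div_le_iff₀ hH0]
    refine FL.wSup_le (mul_nonneg h0 hH0.le) fun P hP hPE => ?_
    rw [W_lin hP, ← div_le_iff₀ hH0]
    exact le_ciSup hbdd ⟨P.coeff 1, hPE⟩

lemma shortRat {f : ℕ → ℂ} (hf : ∀ n, ‖f n‖ ≤ 1) {E : Set UnitAddCircle} (h : SmallAtRationals f E) : ShortRat f E := by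
  intro b q hq hbE ε hε
  obtain ⟨H₀, hH₀⟩ := h b q hq hbE ε hε
  refine ⟨H₀ + 1, fun N H hH hN => ?_⟩
  have hH0 : (0 : ℝ) < H := by exact_mod_cast (by omega : 0 < H)
  have h1 := hH₀ N H (by omega) hN
  simp only [phaseSup_eq _ hf, zero_add] at h1
  have h2 : ∑ n ∈ Icc 1 N, (1 / (n : ℝ)) * ‖W f (lin ((b : ℝ) / q)) n H‖ ≤
      H * ∑ n ∈ Icc 1 N, (1 / (n : ℝ)) * (wSup 1 {(((b : ℝ) / q : ℝ) : UnitAddCircle)} f n H / H) := by
    rw [mul_sum]
    refine sum_le_sum fun n _ => ?_
    have h3 : ‖W f (lin ((b : ℝ) / q)) n H‖ ≤ wSup 1 {(((b : ℝ) / q : ℝ) : UnitAddCircle)} f n H :=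
      FL.le_wSup hf n H (lin_deg _) (by rw [lin_coeff]; rfl)
    calc (1 / (n : ℝ)) * ‖W f (lin ((b : ℝ) / q)) n H‖ ≤
        (1 / (n : ℝ)) * wSup 1 {(((b : ℝ) / q : ℝ) : UnitAddCircle)} f n H :=
          mul_le_mul_of_nonneg_left h3 (by positivity)
      _ = _ := by field_simp
  refine h2.trans ((mul_le_mul_of_nonneg_left h1 hH0.le).trans (le_of_eq ?_))
  ring

lemma sqMean {f : ℕ → ℂ} {m : ℝ} (h : SquareMean f m) : SqMean f m := by
  intro ε hε
  obtain ⟨H₀, h₀⟩ := h ε hε
  refine ⟨H₀, fun H hH n => ?_⟩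
  rw [Pool.Agent.Helper44K9.FB.Ioc_image, sum_image fun a _ b _ hab => by omega]
  exact h₀ H hH n

/-- **Large frequencies and the measure of the set of frequencies.**
(1) Let `f` be multiplicative and bounded by one, `m` the mean of `|f|²` (at most), `E` compact and `f` small in short
intervals at each single rational point of `E`. The upper mean of `s_E(n, H)²` is at most `|E| m`, and the one of
`s_E(n, H)` at most its square root.
(2) For the Möbius function and every compact set `E` the upper mean of `s_E(n, H)²` is at most `(6/π²) |E|`.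
(3) Let `f` be multiplicative, bounded by one and small in short intervals at each rational point, `t > 0`. If `U` is
open, nonempty, and the upper mean of the excess `(s_U(n, H) - t)^+` is at most `σ`, then for all frequencies it is at
most `σ / |U|`.
(4) If it is at most `σ` for all frequencies, it is at most `|E| σ / t²` for every compact set `E`. -/
theorem result :
    (∀ f : ℕ → ℂ, IsBoundedMultiplicative f → ∀ m : ℝ, 0 ≤ m → SquareMean f m → ∀ E : Set UnitAddCircle, IsCompact E →
      SmallAtRationals f E →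
        AtMost (fun n H => phaseSup E f n H ^ 2) ((volume E).toReal * m) ∧
        AtMost (phaseSup E f) (Real.sqrt ((volume E).toReal * m))) ∧
    (∀ E : Set UnitAddCircle, IsCompact E →
        AtMost (fun n H => phaseSup E mu n H ^ 2) (6 / Real.pi ^ 2 * (volume E).toReal) ∧
        AtMost (phaseSup E mu) (Real.sqrt (6 / Real.pi ^ 2 * (volume E).toReal))) ∧
    (∀ f : ℕ → ℂ, IsBoundedMultiplicative f → SmallAtRationals f Set.univ → ∀ t : ℝ, 0 < t → ∀ σ : ℝ, 0 ≤ σ →
      ∀ U : Set UnitAddCircle, IsOpen U → U.Nonempty →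
        AtMost (fun n H => max (phaseSup U f n H - t) 0) σ →
        AtMost (fun n H => max (phaseSup Set.univ f n H - t) 0) (σ / (volume U).toReal)) ∧
    (∀ f : ℕ → ℂ, IsBoundedMultiplicative f → ∀ t : ℝ, 0 < t → ∀ σ : ℝ, 0 ≤ σ →
      ∀ E : Set UnitAddCircle, IsCompact E → SmallAtRationals f E →
        AtMost (fun n H => max (phaseSup Set.univ f n H - t) 0) σ →
        AtMost (fun n H => max (phaseSup E f n H - t) 0) ((volume E).toReal * σ / t ^ 2)) := by
  have h1 : ∀ f : ℕ → ℂ, IsBoundedMultiplicative f → ∀ m : ℝ, 0 ≤ m → SqMean f m → ∀ E : Set UnitAddCircle,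
      IsCompact E → ShortRat f E →
        AtMost (fun n H => phaseSup E f n H ^ 2) ((volume E).toReal * m) ∧
        AtMost (phaseSup E f) (Real.sqrt ((volume E).toReal * m)) := by
    intro f hf m hm hsq E hE hR
    have hE0 : 0 ≤ (volume E).toReal := ENNReal.toReal_nonneg
    have h1 := mean_square hf hm hsq hE hR
    have h2 : AvgB (fun n H => phaseSup E f n H ^ 2) ((volume E).toReal * m) := by
      simp only [phaseSup_eq E hf.1]
      exact h1
    refine ⟨h2, mean_of_sq (by positivity) (fun n H => ?_) h2⟩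
    rw [phaseSup_eq E hf.1]
    exact (nsup01 hf.1 n H).1
  refine ⟨?_, ?_, ?_, ?_⟩
  · intro f hf m hm hsq E hE hR
    exact h1 f hf m hm (sqMean hsq) E hE (shortRat hf.1 hR)
  · intro E hE
    have h2 := h1 mu mu_mult (6 / Real.pi ^ 2) (by positivity) mu_sqMean E hE (fun b q _ _ => mu_shortAt _)
    rw [mul_comm] at h2
    exact h2
  · intro f hf hR t ht σ hσ U hU hne h
    have h2 := excess_lower hf hU (vol_pos hU hne) (shortRat hf.1 hR) ht hσ (by
      have h3 : AvgB (fun n H => max (phaseSup U f n H - t) 0) σ := h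
      simp only [phaseSup_eq U hf.1] at h3
      exact h3)
    have h3 : AvgB (fun n H => max (phaseSup Set.univ f n H - t) 0) (σ / (volume U).toReal) := by
      simp only [phaseSup_eq Set.univ hf.1]
      exact h2
    exact h3
  · intro f hf t ht σ hσ E hE hR h
    have h2 := excess_upper hf hE (shortRat hf.1 hR) ht hσ (by
      have h3 : AvgB (fun n H => max (phaseSup Set.univ f n H - t) 0) σ := h
      simp only [phaseSup_eq Set.univ hf.1] at h3
      exact h3)
    have h3 : AvgB (fun n H => max (phaseSup E f n H - t) 0) ((volume E).toReal * σ / t ^ 2) := by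
      simp only [phaseSup_eq E hf.1]
      exact h2
    exact h3

end Pool.Agent.Results.MP_663568_nt.MeanSquareFrequencySets
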