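import Pool.Agent.T9h55.MD.Rot

/-!
# Leading coefficients in compact null sets: the exact strength of the statement

Let `f` be a multiplicative function bounded by one. We consider the logarithmic averages of the suprema of
`|∑_{h ≤ H} f(n+h) e(P(n+h))|` over ALL real polynomials `P` of degree at most `d + 1` whose leading coefficient (the
coefficient of `x^(d+1)`) lies in a compact null set `E` modulo one, `d ≥ 1`. If `E` contains no rational point they are
`o(H)` (this is known). Here we determine what happens for the sets which contain rational points: the averages are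
`o(H)` if and only if those over all polynomials of degree at most `d` are. So leading coefficients in a null set can
be added for free, and a single rational point of the set already carries the whole problem of degree `d`.

For `d = 1` and the Möbius function: the problem for all rotations of all tori (`G = ℝ^m`, `Γ = ℤ^m`) is equivalent to
the estimate for the quadratic phases `e(α n² + β n)`, `β` arbitrary and `α` in Cantor's set.
-/

set_option autoImplicit false

open Finset MeasureTheory Polynomial

namespace Pool.Agent.Results.MP_663568_nt.NullLeadingCoefficients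

/-- `e(x) = exp(2 π i x)` -/
noncomputable def e (x : ℝ) : ℂ := Complex.exp (2 * Real.pi * Complex.I * x)

/-- the Möbius function -/
noncomputable def mu (n : ℕ) : ℂ := ((ArithmeticFunction.moebius n : ℤ) : ℂ)

/-- `f` is multiplicative and bounded by one. -/
def IsBoundedMultiplicative (f : ℕ → ℂ) : Prop :=
  (∀ n, ‖f n‖ ≤ 1) ∧ ∀ a b : ℕ, a.Coprime b → f (a * b) = f a * f b

/-- The supremum of `|∑_{1 ≤ h ≤ H} f(n + h) e(P(n + h))|` over all real polynomials `P` of degree at most `d` whose
coefficient of `x ^ d` is in `U` modulo one; all other coefficients are arbitrary. -/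
noncomputable def windowSup (d : ℕ) (U : Set UnitAddCircle) (f : ℕ → ℂ) (n H : ℕ) : ℝ :=
  ⨆ P : {P : ℝ[X] // P.natDegree ≤ d ∧ ((P.coeff d : ℝ) : UnitAddCircle) ∈ U},
    ‖∑ h ∈ Icc 1 H, f (n + h) * e (P.1.eval ((n + h : ℕ) : ℝ))‖

/-- The upper limit of the logarithmic averages of the suprema is at most `σ`: for every `ε > 0` and all `N ≥ H ≥ H₀`,
`∑_{n ≤ N} (1/n) sup_P |∑_{h ≤ H} f(n + h) e(P(n + h))| ≤ (σ + ε) H log N`. -/
def AtMost (f : ℕ → ℂ) (d : ℕ) (U : Set UnitAddCircle) (σ : ℝ) : Prop :=
  ∀ ε : ℝ, 0 < ε → ∃ H₀ : ℕ, ∀ N H : ℕ, H₀ ≤ H → H ≤ N →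
    ∑ n ∈ Icc 1 N, (1 / (n : ℝ)) * windowSup d U f n H ≤ (σ + ε) * H * Real.log N

/-- `E` contains a rational number modulo one. -/
def HasRationalPoint (E : Set UnitAddCircle) : Prop :=
  ∃ b q : ℕ, 1 ≤ q ∧ (((b : ℝ) / q : ℝ) : UnitAddCircle) ∈ E

/-- Cantor's ternary set modulo one -/
def cantorCircle : Set UnitAddCircle := (fun x : ℝ => (x : UnitAddCircle)) '' cantorSet

/-- The supremum of `|∑_{1 ≤ h ≤ H} μ(n + h) F(P(n + h))|` over all polynomial orbits
`P = (P_1, ..., P_m)` of degree at most `d` on the torus. -/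
noncomputable def orbitSup {m : ℕ} (d : ℕ) (F : C(Fin m → UnitAddCircle, ℂ)) (n H : ℕ) : ℝ :=
  ⨆ P : {P : Fin m → ℝ[X] // ∀ i, (P i).natDegree ≤ d}, ‖∑ h ∈ Icc 1 H, mu (n + h) *
    F (fun i => (((P.1 i).eval ((n + h : ℕ) : ℝ) : ℝ) : UnitAddCircle))‖

/-- The supremum of `|∑_{1 ≤ h ≤ H} μ(n + h) F(x + (n + h) g)|` over all rotations `g ∈ V` and all starting points
`x` of the torus. -/
noncomputable def rotationSup {m : ℕ} (F : C(Fin m → UnitAddCircle, ℂ)) (V : Set (Fin m → UnitAddCircle))
    (n H : ℕ) : ℝ :=
  ⨆ p : V × (Fin m → UnitAddCircle), ‖∑ h ∈ Icc 1 H, mu (n + h) * F (p.2 + (n + h) • (p.1 : Fin m → UnitAddCircle))‖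

/-- `∑_{n ≤ N} (1/n) s(n, H) = o(H log N)`, uniformly over `N ≥ H`. -/
def Small (s : ℕ → ℕ → ℝ) : Prop := ∀ ε : ℝ, 0 < ε → ∃ H₀ : ℕ, ∀ N H : ℕ, H₀ ≤ H → H ≤ N →
  ∑ n ∈ Icc 1 N, (1 / (n : ℝ)) * s n H ≤ ε * H * Real.log N

open Pool.Agent.T9h55.MD Pool.Agent.Helper44K9.FU

lemma windowSup_eq (d : ℕ) (E : Set UnitAddCircle) (f : ℕ → ℂ) (n H : ℕ) :
    windowSup d E f n H = Pool.Agent.Helper44K9.FU.wSup d E f n H := by
  unfold windowSup Pool.Agent.Helper44K9.FU.wSup Pool.Agent.Helper44K9.FU.W
  congr 1
  funext P
  rw [Pool.Agent.Helper44K9.FB.Ioc_image, sum_image fun a _ b _ hab => by omega]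
  rfl

lemma atMost_iff {f : ℕ → ℂ} {d : ℕ} {U : Set UnitAddCircle} {σ : ℝ} : AtMost f d U σ ↔ BddF f d U σ := by
  unfold AtMost BddF
  simp only [windowSup_eq]

/-- **Leading coefficients in compact null sets.**
(1) Let `d ≥ 1`. There is `A` such that for every multiplicative `f` bounded by one for which the averages over all
polynomials of degree at most `d` are `o(H)`, and every compact set `E`, the upper limit over all polynomials of degree
at most `d + 1` with leading coefficient in `E` is at most `A |E|^(1/A)`.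
(2) Let `d ≥ 1`, `f` multiplicative and bounded by one and `E` a compact null set. The averages over all polynomials of
degree at most `d + 1` with leading coefficient in `E` are `o(H)` if and only if `E` contains no rational point or
the averages over all polynomials of degree at most `d` are `o(H)`.
(3) For the Möbius function, `d ≥ 1` and a compact null set `E` with a rational point: the sums with the supremum over
all polynomial orbits of degree at most `d` are `o(H log N)` on all tori and for all continuous functions if and only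
if this holds for the phases `e(P(n))` of degree at most `d + 1` with leading coefficient in `E`.
(4) The estimate for all rotations and starting points on all tori and all continuous functions holds if and only if it
holds for the quadratic phases whose leading coefficient is in Cantor's set. -/
theorem result :
    (∀ d : ℕ, 1 ≤ d → ∃ A : ℕ, 1 ≤ A ∧ ∀ f : ℕ → ℂ, IsBoundedMultiplicative f → AtMost f d Set.univ 0 →
      ∀ E : Set UnitAddCircle, IsCompact E → AtMost f (d + 1) E (A * (volume E).toReal ^ (1 / (A : ℝ)))) ∧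
    (∀ d : ℕ, 1 ≤ d → ∀ f : ℕ → ℂ, IsBoundedMultiplicative f → ∀ E : Set UnitAddCircle, IsCompact E →
      volume E = 0 → (AtMost f (d + 1) E 0 ↔ (¬ HasRationalPoint E ∨ AtMost f d Set.univ 0))) ∧
    (∀ d : ℕ, 1 ≤ d → ∀ E : Set UnitAddCircle, IsCompact E → volume E = 0 → HasRationalPoint E →
      ((∀ (m : ℕ) (F : C(Fin m → UnitAddCircle, ℂ)), Small (orbitSup d F)) ↔ AtMost mu (d + 1) E 0)) ∧
    ((∀ (m : ℕ) (F : C(Fin m → UnitAddCircle, ℂ)), Small (rotationSup F Set.univ)) ↔
      AtMost mu 2 cantorCircle 0) := by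
  have hnull : ∀ d : ℕ, 1 ≤ d → ∀ f : ℕ → ℂ, IsBoundedMultiplicative f → ∀ E : Set UnitAddCircle, IsCompact E →
      volume E = 0 → (AtMost f (d + 1) E 0 ↔ (¬ HasRationalPoint E ∨ AtMost f d Set.univ 0)) := by
    intro d hd f hf E hE hv
    rw [atMost_iff, atMost_iff]
    exact null_iff hd hf hE hv
  have hmu : Mul1 mu := mu_mult
  refine ⟨?_, hnull, ?_, ?_⟩
  · intro d hd
    obtain ⟨A, hA, h⟩ := null_deg hd
    refine ⟨A, hA, fun f hf h0 E hE => ?_⟩
    rw [atMost_iff] at h0 ⊢
    exact h f hf (full_iff.2 h0) E hE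
  · intro d hd E hE hv hr
    rw [hnull d hd mu mu_mult E hE hv, atMost_iff, ← full_iff, ← orb_iff hmu d]
    constructor
    · intro h
      exact Or.inr h
    · rintro (h | h)
      · exact absurd hr h
      · exact h
  · have h1 : HasRationalPoint cantorCircle := ⟨0, 1, le_rfl, by
      simp only [Nat.cast_zero, zero_div, AddCircle.coe_zero]
      exact cantor_zero⟩
    rw [hnull 1 le_rfl mu mu_mult cantorCircle cantor_compact cantor_null, atMost_iff, ← full_iff, ← rot_iff hmu]
    constructor
    · intro h
      exact Or.inr h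
    · rintro (h | h)
      · exact absurd h1 h
      · exact h

end Pool.Agent.Results.MP_663568_nt.NullLeadingCoefficients
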